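import Mathlib

set_option autoImplicit false

namespace Pool.Agent.P.MP_7ab5f9_al

/-- `s` is an ordered surjection, witnessed by the section `e` of first preimages. -/
def OrdSurj {m n : ℕ} (s : Fin n → Fin m) : Prop :=
  ∃ e : Fin m → Fin n, (∀ i, s (e i) = i) ∧ ∀ i j, j < e i → s j < i

/-- position `i` is the first occurrence of its letter -/
def IsFirst {A : Type} {n : ℕ} (w : Fin n → A) (i : Fin n) : Prop :=
  ∀ j, j < i → w j ≠ w i

theorem exists_first {A : Type} {n : ℕ} (w : Fin n → A) (a : A) (h : a ∈ Set.range w) :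
    ∃ i, w i = a ∧ IsFirst w i := by
  classical
  obtain ⟨i, hi, hmin⟩ := WellFounded.has_min (wellFounded_lt (α := Fin n)) {i | w i = a} h
  refine ⟨i, hi, fun j hj hji => hmin j ?_ hj⟩
  have hi' : w i = a := hi
  show w j = a
  rw [hji, hi']

theorem ordSurj_of_embedding {A : Type} {m n : ℕ} (w : Fin m → A) (w' : Fin n → A)
    (e : Fin m → Fin n) (he : StrictMono e) (h1 : ∀ i, w' (e i) = w i)
    (h2 : ∀ i, IsFirst w i → IsFirst w' (e i)) (h3 : Set.range w = Set.range w') :
    ∃ s : Fin n → Fin m, OrdSurj s ∧ ∀ j, w (s j) = w' j := by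
  classical
  have key : ∀ j : Fin n, ∃ i : Fin m, w i = w' j ∧ e i ≤ j ∧ ∀ i', e i' = j → i' = i := by
    intro j
    by_cases hj : ∃ i, e i = j
    · obtain ⟨i, hi⟩ := hj
      refine ⟨i, ?_, hi.le, fun i' hi' => he.injective (hi'.trans hi.symm)⟩
      rw [← hi, h1]
    · have hmem : w' j ∈ Set.range w := by rw [h3]; exact ⟨j, rfl⟩
      obtain ⟨i, hi, hf⟩ := exists_first w _ hmem
      refine ⟨i, hi, ?_, fun i' hi' => absurd ⟨i', hi'⟩ hj⟩
      by_contra hlt
      push Not at hlt
      exact h2 i hf j hlt (by rw [h1, hi])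
  choose s hs1 hs2 hs3 using key
  refine ⟨s, ⟨e, fun i => (hs3 (e i) i rfl).symm, fun i j hj => ?_⟩, hs1⟩
  exact he.lt_iff_lt.1 (lt_of_le_of_lt (hs2 j) hj)

/-- Words over a finite alphabet, with a colour from a finite set, are well-quasi-ordered by
composition with ordered surjections. -/
theorem wqo_words {A C : Type} [Finite A] [Finite C] (n : ℕ → ℕ) (w : ∀ k, Fin (n k) → A)
    (c : ℕ → C) :
    ∃ k l, k < l ∧ c k = c l ∧ ∃ s : Fin (n l) → Fin (n k), OrdSurj s ∧ ∀ j, w k (s j) = w l j := by
  classical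
  have h1 : (Set.univ : Set (A × Prop)).PartiallyWellOrderedOn (· = ·) :=
    Set.finite_univ.partiallyWellOrderedOn
  have h2 := h1.partiallyWellOrderedOn_sublistForall₂ (· = ·)
  have h3 : (Set.univ : Set (C × Set A)).PartiallyWellOrderedOn (· = ·) :=
    Set.finite_univ.partiallyWellOrderedOn
  have : IsPreorder (List (A × Prop)) (List.SublistForall₂ fun x1 x2 => x1 = x2) := {}
  have h4 := h2.prod h3
  obtain ⟨k, l, hkl, hr, hc⟩ := h4.exists_lt
    (f := fun k => (List.ofFn (fun i => (w k i, IsFirst (w k) i)), (c k, Set.range (w k))))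
    (fun k => ⟨fun _ _ => Set.mem_univ _, Set.mem_univ _⟩)
  simp only [Prod.mk.injEq] at hc
  rw [List.sublistForall₂_iff] at hr
  obtain ⟨l0, hl0, hsub⟩ := hr
  rw [List.forall₂_eq_eq_eq] at hl0
  subst hl0
  obtain ⟨f, hf⟩ := List.sublist_iff_exists_orderEmbedding_getElem?_eq.1 hsub
  have key : ∀ i : Fin (n k), ∃ h : f i < n l,
      (w k i, IsFirst (w k) i) = (w l ⟨f i, h⟩, IsFirst (w l) ⟨f i, h⟩) := by
    intro i
    have := hf i
    simp only [List.getElem?_ofFn, i.2, dif_pos] at this
    by_cases h : f i < n l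
    · rw [dif_pos h] at this
      exact ⟨h, Option.some_injective _ this⟩
    · rw [dif_neg h] at this
      cases this
  choose hlt hk using key
  refine ⟨k, l, hkl, hc.1, ?_⟩
  refine ordSurj_of_embedding (w k) (w l) (fun i => ⟨f i, hlt i⟩) ?_ ?_ ?_ hc.2
  · intro a b hab
    exact f.strictMono hab
  · intro i
    exact (congrArg Prod.fst (hk i)).symm
  · intro i hi
    have := congrArg Prod.snd (hk i)
    simp only at this
    rw [← this]
    exact hi

/-- Echelon lemma: two nested subgroups of a finite power with the same leading sets agree. -/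
theorem echelon {Y G X : Type} [LinearOrder Y] [Finite Y] [Group G] [Group X]
    (φ : X →* (Y → G)) (hφ : Function.Injective φ) (R R' : Subgroup X) (hle : R' ≤ R)
    (h : ∀ y, ∀ r ∈ R, (∀ y', y' < y → φ r y' = 1) →
      ∃ r' ∈ R', (∀ y', y' < y → φ r' y' = 1) ∧ φ r' y = φ r y) : R ≤ R' := by
  classical
  have hmin : ∀ t : X, t ≠ 1 → ∃ z, φ t z ≠ 1 ∧ ∀ y', y' < z → φ t y' = 1 := by
    intro t ht
    have hne : {z | φ t z ≠ 1}.Nonempty := by
      by_contra hcon
      apply ht
      apply hφ
      rw [map_one]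
      funext z
      by_contra hz
      exact hcon ⟨z, hz⟩
    obtain ⟨z, hz, hzmin⟩ := WellFounded.has_min (wellFounded_lt (α := Y)) _ hne
    refine ⟨z, hz, fun y' hy' => ?_⟩
    by_contra hcon
    exact hzmin y' hcon hy'
  have key : ∀ y : Y, ∀ r ∈ R, (∀ y', y' < y → φ r y' = 1) → r ∈ R' := by
    intro y
    induction y using (wellFounded_gt (α := Y)).induction with
    | _ y ih =>
      intro r hr hv
      obtain ⟨r', hr', hv', he⟩ := h y r hr hv
      by_cases ht : r * r'⁻¹ = 1
      · rw [mul_inv_eq_one] at ht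
        rw [ht]; exact hr'
      · obtain ⟨z, hz, hzmin⟩ := hmin _ ht
        have hyz : y < z := by
          by_contra hcon
          push Not at hcon
          apply hz
          rcases hcon.lt_or_eq with hlt | heq
          · simp [hv z hlt, hv' z hlt]
          · subst heq
            simp [he]
        have := ih z hyz _ (R.mul_mem hr (R.inv_mem (hle hr'))) hzmin
        simpa using R'.mul_mem this hr'
  intro r hr
  by_cases ht : r = 1
  · rw [ht]; exact R'.one_mem
  · obtain ⟨z, -, hzmin⟩ := hmin r ht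
    exact key z r hr hzmin

end Pool.Agent.P.MP_7ab5f9_al
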