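import Mathlib
import Pool.Agent.P.MP_7ab5f9_al.Wqo

set_option autoImplicit false

namespace Pool.Agent.P.MP_7ab5f9_al

abbrev Cls := ∀ (X : Type), [Group X] → Prop

structure IsForm (F : Cls) : Prop where
  quot : ∀ (X Y : Type) [Group X] [Group Y] [Finite X], F X →
    ∀ f : X →* Y, Function.Surjective f → F Y
  inf : ∀ (X : Type) [Group X] [Finite X] (N₁ N₂ : Subgroup X) [N₁.Normal] [N₂.Normal],
    F (X ⧸ N₁) → F (X ⧸ N₂) → F (X ⧸ (N₁ ⊓ N₂))

/-- the formation generated by `K` -/
def form (K : Type) [Group K] : Cls := fun H _ => ∀ E : Cls, IsForm E → E K → E H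

theorem isForm_form (K : Type) [Group K] : IsForm (form K) where
  quot := fun X Y _ _ _ h f hf E hE hK => hE.quot X Y (h E hE hK) f hf
  inf := fun X _ _ N₁ N₂ _ _ h1 h2 E hE hK => hE.inf X N₁ N₂ (h1 E hE hK) (h2 E hE hK)

theorem form_self (K : Type) [Group K] : form K K := fun _ _ h => h

/-- `N` is a normal subgroup with quotient in `F` -/
def Good (F : Cls) {X : Type} [Group X] (N : Subgroup X) : Prop :=
  ∃ _ : N.Normal, F (X ⧸ N)

/-- the `F`-residual -/
def res (F : Cls) (X : Type) [Group X] : Subgroup X := sInf {N | Good F N}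

section residual

variable {F : Cls} (hF : IsForm F)
include hF

theorem good_ker {X Y : Type} [Group X] [Group Y] [Finite X] (f : X →* Y)
    (hf : Function.Surjective f) (hY : F Y) : Good F f.ker := by
  have : Finite Y := Finite.of_surjective f hf
  exact ⟨inferInstance, hF.quot Y _ hY (QuotientGroup.quotientKerEquivOfSurjective f hf).symm
    (QuotientGroup.quotientKerEquivOfSurjective f hf).symm.surjective⟩

theorem mem_of_good {X Y : Type} [Group X] [Group Y] [Finite X] {N : Subgroup X} (hN : Good F N)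
    (f : X →* Y) (hf : Function.Surjective f) (hle : N ≤ f.ker) : F Y := by
  obtain ⟨hn, hN⟩ := hN
  refine hF.quot _ Y hN (QuotientGroup.lift N f hle) ?_
  intro y
  obtain ⟨x, rfl⟩ := hf y
  exact ⟨x, rfl⟩

theorem good_top (hne : ∃ (X : Type) (inst : Group X), Finite X ∧ @F X inst)
    (X : Type) [Group X] : Good F (⊤ : Subgroup X) := by
  obtain ⟨Z, _, _, hZ⟩ := hne
  refine ⟨inferInstance, hF.quot Z _ hZ 1 ?_⟩
  intro y
  have : Subsingleton (X ⧸ (⊤ : Subgroup X)) := QuotientGroup.subsingleton_quotient_top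
  exact ⟨1, Subsingleton.elim _ _⟩

theorem good_res (hne : ∃ (X : Type) (inst : Group X), Finite X ∧ @F X inst)
    (X : Type) [Group X] [Finite X] : Good F (res F X) := by
  obtain ⟨N, hN, hmin⟩ := WellFounded.has_min (wellFounded_lt (α := Subgroup X))
    {N | Good F N} ⟨⊤, good_top hF hne X⟩
  have : res F X = N := by
    apply le_antisymm (sInf_le hN)
    refine le_sInf fun M hM => ?_
    obtain ⟨hn, hN'⟩ := hN
    obtain ⟨hm, hM'⟩ := hM
    have h2 : Good F (N ⊓ M) := ⟨inferInstance, hF.inf X N M hN' hM'⟩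
    by_contra hcon
    exact hmin _ h2 (lt_of_le_of_ne inf_le_left fun h => hcon (h ▸ inf_le_right))
  rw [this]; exact hN

theorem res_le_ker {X Y : Type} [Group X] [Group Y] [Finite X] (f : X →* Y)
    (hf : Function.Surjective f) (hY : F Y) : res F X ≤ f.ker :=
  sInf_le (good_ker hF f hf hY)

theorem map_res (hne : ∃ (X : Type) (inst : Group X), Finite X ∧ @F X inst)
    {X Y : Type} [Group X] [Group Y] [Finite X] (f : X →* Y)
    (hf : Function.Surjective f) (x : X) (hx : x ∈ res F X) : f x ∈ res F Y := by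
  have : Finite Y := Finite.of_surjective f hf
  obtain ⟨hn, hY⟩ := good_res hF hne Y
  have := res_le_ker hF ((QuotientGroup.mk' (res F Y)).comp f)
    ((QuotientGroup.mk'_surjective _).comp hf) hY hx
  simpa using this

end residual

section generic

variable (G : Type) [Group G]

/-- generating `n`-tuples -/
def Tup (n : ℕ) : Type := {y : Fin n → G // Subgroup.closure (Set.range y) = ⊤}

instance [Finite G] (n : ℕ) : Finite (Tup G n) := by
  unfold Tup; infer_instance

/-- simultaneous evaluation of a word at all generating tuples -/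
def ev (n : ℕ) : FreeGroup (Fin n) →* (Tup G n → G) := FreeGroup.lift fun i y => y.1 i

/-- the largest `n`-generated subdirect power of `G` -/
abbrev Phi (n : ℕ) : Type := (ev G n).range

theorem ev_apply (n : ℕ) (w : FreeGroup (Fin n)) (y : Tup G n) :
    ev G n w y = FreeGroup.lift y.1 w := by
  have : (Pi.evalMonoidHom (fun _ : Tup G n => G) y).comp (ev G n) = FreeGroup.lift y.1 := by
    ext i; simp [ev]
  exact DFunLike.congr_fun this w

/-- surjections onto `G` separate points -/
def Sep (D : Type) [Group D] : Prop :=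
  ∀ x : D, (∀ z : D →* G, Function.Surjective z → z x = 1) → x = 1

theorem lift_surj {D : Type} [Group D] {n : ℕ} (d : Fin n → D)
    (hd : Subgroup.closure (Set.range d) = ⊤) : Function.Surjective (FreeGroup.lift d) := by
  rw [← MonoidHom.range_eq_top, FreeGroup.range_lift_eq_closure, hd]

theorem sep_phi (n : ℕ) : Sep G (Phi G n) := by
  intro x hx
  ext y
  refine hx ((Pi.evalMonoidHom (fun _ : Tup G n => G) y).comp (ev G n).range.subtype) ?_
  intro g
  obtain ⟨w, hw⟩ := lift_surj y.1 y.2 g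
  exact ⟨⟨ev G n w, w, rfl⟩, by simpa [ev_apply] using hw⟩

theorem exists_surj_of_free {D : Type} [Group D] (hD : Sep G D) {n : ℕ}
    (p : FreeGroup (Fin n) →* D) (hp : Function.Surjective p) :
    ∃ θ : Phi G n →* D, Function.Surjective θ := by
  have hker : (ev G n).rangeRestrict.ker ≤ p.ker := by
    intro w hw
    rw [MonoidHom.mem_ker] at hw ⊢
    have hw' : ev G n w = 1 := congrArg Subtype.val hw
    refine hD _ fun z hz => ?_
    have hzp : z.comp p = FreeGroup.lift fun i => z (p (FreeGroup.of i)) := by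
      ext i; simp
    have hy : Subgroup.closure (Set.range fun i => z (p (FreeGroup.of i))) = ⊤ := by
      rw [← FreeGroup.range_lift_eq_closure, ← hzp, MonoidHom.range_eq_top]
      exact hz.comp hp
    have h1 := ev_apply G n w ⟨_, hy⟩
    rw [hw'] at h1
    have h2 := DFunLike.congr_fun hzp w
    simp only [MonoidHom.comp_apply] at h2
    rw [h2]
    exact h1.symm
  refine ⟨(ev G n).rangeRestrict.liftOfSurjective (ev G n).rangeRestrict_surjective ⟨p, hker⟩, ?_⟩
  intro x
  obtain ⟨w, rfl⟩ := hp x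
  exact ⟨(ev G n).rangeRestrict w, by simp⟩

theorem exists_phi_surj_of_le {n k : ℕ} (h : n ≤ k) :
    ∃ θ : Phi G k →* Phi G n, Function.Surjective θ := by
  classical
  refine exists_surj_of_free G (sep_phi G n) ((ev G n).rangeRestrict.comp
    (FreeGroup.lift fun i : Fin k =>
      if hi : (i : ℕ) < n then FreeGroup.of (⟨i, hi⟩ : Fin n) else 1)) ?_
  refine (ev G n).rangeRestrict_surjective.comp ?_
  apply lift_surj
  rw [eq_top_iff, ← FreeGroup.closure_range_of]
  apply Subgroup.closure_mono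
  rintro _ ⟨i, rfl⟩
  exact ⟨⟨i, lt_of_lt_of_le i.2 h⟩, by simp⟩

theorem exists_phi_surj {D : Type} [Group D] [Finite D] (hD : Sep G D) :
    ∃ n, ∃ θ : Phi G n →* D, Function.Surjective θ := by
  obtain ⟨n, ⟨e⟩⟩ := Finite.exists_equiv_fin D
  refine ⟨n, exists_surj_of_free G hD (FreeGroup.lift e.symm) (lift_surj _ ?_)⟩
  rw [e.symm.surjective.range_eq, Subgroup.closure_univ]

/-- images of finite subdirect powers of `G` -/
def Img : Cls := fun H _ =>
  ∃ (D : Type) (_ : Group D) (_ : Finite D), Sep G D ∧ ∃ f : D →* H, Function.Surjective f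

theorem img_self [Finite G] : Img G G :=
  ⟨G, inferInstance, inferInstance, fun _ hx => hx (MonoidHom.id G) Function.surjective_id,
    MonoidHom.id G, Function.surjective_id⟩

theorem isForm_img : IsForm (Img G) where
  quot := by
    rintro X Y _ _ _ ⟨D, _, _, hD, f, hf⟩ g hg
    exact ⟨D, inferInstance, inferInstance, hD, g.comp f, hg.comp hf⟩
  inf := by
    rintro X _ _ N₁ N₂ _ _ ⟨D₁, _, _, hD₁, f₁, hf₁⟩ ⟨D₂, _, _, hD₂, f₂, hf₂⟩
    let p₁ : X ⧸ (N₁ ⊓ N₂) →* X ⧸ N₁ := QuotientGroup.map _ _ (MonoidHom.id X) inf_le_left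
    let p₂ : X ⧸ (N₁ ⊓ N₂) →* X ⧸ N₂ := QuotientGroup.map _ _ (MonoidHom.id X) inf_le_right
    have hp₁ : Function.Surjective p₁ := by
      rintro ⟨x⟩; exact ⟨x, rfl⟩
    have hp₂ : Function.Surjective p₂ := by
      rintro ⟨x⟩; exact ⟨x, rfl⟩
    have hp : ∀ x, p₁ x = 1 → p₂ x = 1 → x = 1 := by
      intro x
      induction x using QuotientGroup.induction_on with
      | H x =>
        intro h1 h2
        have h1' : ((x : X) : X ⧸ N₁) = 1 := h1
        have h2' : ((x : X) : X ⧸ N₂) = 1 := h2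
        rw [QuotientGroup.eq_one_iff] at h1' h2' ⊢
        exact ⟨h1', h2'⟩
    let D : Subgroup ((X ⧸ (N₁ ⊓ N₂)) × D₁ × D₂) :=
      { carrier := {t | p₁ t.1 = f₁ t.2.1 ∧ p₂ t.1 = f₂ t.2.2}
        mul_mem' := by
          rintro a b ⟨ha1, ha2⟩ ⟨hb1, hb2⟩
          exact ⟨by simp [ha1, hb1], by simp [ha2, hb2]⟩
        one_mem' := ⟨by simp, by simp⟩
        inv_mem' := by
          rintro a ⟨ha1, ha2⟩
          exact ⟨by simp [ha1], by simp [ha2]⟩ }
    refine ⟨D, inferInstance, inferInstance, ?_, (MonoidHom.fst _ _).comp D.subtype, ?_⟩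
    · rintro ⟨⟨x, a, b⟩, hx1, hx2⟩ hz
      have ha : a = 1 := by
        refine hD₁ a fun z hzs => ?_
        refine hz (z.comp ((MonoidHom.fst _ _).comp ((MonoidHom.snd _ _).comp D.subtype))) ?_
        refine hzs.comp ?_
        intro a'
        obtain ⟨x', hx'⟩ := hp₁ (f₁ a')
        obtain ⟨b', hb'⟩ := hf₂ (p₂ x')
        exact ⟨⟨(x', a', b'), hx', hb'.symm⟩, rfl⟩
      have hb : b = 1 := by
        refine hD₂ b fun z hzs => ?_
        refine hz (z.comp ((MonoidHom.snd _ _).comp ((MonoidHom.snd _ _).comp D.subtype))) ?_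
        refine hzs.comp ?_
        intro b'
        obtain ⟨x', hx'⟩ := hp₂ (f₂ b')
        obtain ⟨a', ha'⟩ := hf₁ (p₁ x')
        exact ⟨⟨(x', a', b'), ha'.symm, hx'⟩, rfl⟩
      subst ha hb
      have hx : x = 1 := hp x (by simpa using hx1) (by simpa using hx2)
      subst hx
      rfl
    · intro x
      obtain ⟨a, ha⟩ := hf₁ (p₁ x)
      obtain ⟨b, hb⟩ := hf₂ (p₂ x)
      exact ⟨⟨(x, a, b), ha.symm, hb.symm⟩, rfl⟩

/-- precomposition of a generating tuple with a surjection -/
def pull {m n : ℕ} (s : Fin n → Fin m) (hs : Function.Surjective s) (y : Tup G m) : Tup G n :=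
  ⟨fun j => y.1 (s j), by
    have : Set.range (fun j => y.1 (s j)) = Set.range y.1 := hs.range_comp y.1
    rw [this]; exact y.2⟩

theorem exists_restrict {m n : ℕ} (s : Fin n → Fin m) (hs : Function.Surjective s) :
    ∃ θ : Phi G n →* Phi G m, Function.Surjective θ ∧
      ∀ (r : Phi G n) (y : Tup G m), (θ r).1 y = r.1 (pull G s hs y) := by
  let ρ : (Tup G n → G) →* (Tup G m → G) :=
    { toFun := fun g y => g (pull G s hs y)
      map_one' := rfl
      map_mul' := fun _ _ => rfl }
  have hρ : ρ.comp (ev G n) = (ev G m).comp (FreeGroup.map s) := by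
    ext i y
    simp [ev, ρ, pull]
  have hρ' : ∀ w, ρ (ev G n w) = ev G m (FreeGroup.map s w) := fun w => DFunLike.congr_fun hρ w
  refine ⟨(ρ.comp (ev G n).range.subtype).codRestrict _ ?_, ?_, fun r y => rfl⟩
  · rintro ⟨_, w, rfl⟩
    exact ⟨_, (hρ' w).symm⟩
  · rintro ⟨_, w, rfl⟩
    obtain ⟨w', rfl⟩ := FreeGroup.map_surjective hs w
    exact ⟨⟨ev G n w', w', rfl⟩, Subtype.ext (hρ' w')⟩

end generic

section main

variable (G : Type) [Group G] [Finite G]

/-- a fixed injective numbering of `G` -/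
noncomputable def num : G → ℕ := fun g => (Finite.equivFin G g : ℕ)

theorem num_inj : Function.Injective (num G) := fun _ _ h =>
  (Finite.equivFin G).injective (Fin.ext h)

/-- lexicographic code of a tuple -/
noncomputable def code (n : ℕ) (y : Tup G n) : Lex (Fin n → ℕ) := toLex fun i => num G (y.1 i)

theorem code_inj (n : ℕ) : Function.Injective (code G n) := by
  intro y y' h
  apply Subtype.ext
  funext i
  exact num_inj G (congrFun (toLex.injective h) i)

theorem code_pull_lt {m n : ℕ} (s : Fin n → Fin m) (hs : Function.Surjective s) (ho : OrdSurj s)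
    (y y' : Tup G m) (h : code G m y' < code G m y) :
    code G n (pull G s hs y') < code G n (pull G s hs y) := by
  obtain ⟨e, he1, he2⟩ := ho
  obtain ⟨i, hi1, hi2⟩ := h
  refine ⟨e i, fun j hj => hi1 (s j) (he2 i j hj), ?_⟩
  show num G (y'.1 (s (e i))) < num G (y.1 (s (e i)))
  rw [he1]
  exact hi2

/-- leading set of the residual at the tuple `y` -/
def lead (F : Cls) (n : ℕ) (y : Tup G n) : Set G :=
  {g | ∃ r ∈ res F (Phi G n), (∀ y', code G n y' < code G n y → r.1 y' = 1) ∧ r.1 y = g}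

theorem lead_pull {F : Cls} (hF : IsForm F)
    (hne : ∃ (X : Type) (inst : Group X), Finite X ∧ @F X inst)
    {m n : ℕ} (s : Fin n → Fin m) (hs : Function.Surjective s) (ho : OrdSurj s) (y : Tup G m) :
    lead G F n (pull G s hs y) ⊆ lead G F m y := by
  rintro g ⟨r, hr, hv, rfl⟩
  obtain ⟨θ, hθ, hθ'⟩ := exists_restrict G s hs
  refine ⟨θ r, map_res hF hne θ hθ r hr, fun y' hy' => ?_, hθ' r y⟩
  rw [hθ']
  exact hv _ (code_pull_lt G s hs ho y y' hy')

theorem res_le_of_lead {F F' : Cls} (n : ℕ) (hle : res F' (Phi G n) ≤ res F (Phi G n))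
    (h : ∀ y, lead G F n y ⊆ lead G F' n y) : res F (Phi G n) ≤ res F' (Phi G n) := by
  letI : LinearOrder (Tup G n) := LinearOrder.lift' (code G n) (code_inj G n)
  refine echelon (ev G n).range.subtype Subtype.val_injective _ _ hle ?_
  intro y r hr hv
  obtain ⟨r', hr', hv', he⟩ := h y ⟨r, hr, hv, rfl⟩
  exact ⟨r', hr', hv', he⟩

theorem main (F : Cls) (hF : IsForm F)
    (hne : ∃ (X : Type) (inst : Group X), Finite X ∧ @F X inst)
    (hsub : ∀ (H : Type) [Group H] [Finite H], F H → form G H) :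
    ∃ (K : Type) (instK : Group K), Finite K ∧
      ∀ (H : Type) [Group H] [Finite H], (F H ↔ @form K instK H _) := by
  classical
  have hgood : ∀ k, Good F (res F (Phi G k)) := fun k => good_res hF hne _
  have hnorm : ∀ k, (res F (Phi G k)).Normal := fun k => (hgood k).1
  have hK : ∀ k, F (Phi G k ⧸ res F (Phi G k)) := fun k => (hgood k).2
  let Fk : ℕ → Cls := fun k => form (Phi G k ⧸ res F (Phi G k))
  have hFk : ∀ k, IsForm (Fk k) := fun k => isForm_form _
  have hnek : ∀ k, ∃ (X : Type) (inst : Group X), Finite X ∧ @Fk k X inst :=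
    fun k => ⟨_, inferInstance, inferInstance, form_self _⟩
  have hle : ∀ k n, res F (Phi G n) ≤ res (Fk k) (Phi G n) := by
    intro k n
    refine sInf_le_sInf ?_
    rintro N ⟨hn, hN⟩
    exact ⟨hn, hN F hF (hK k)⟩
  have hge : ∀ k n, n ≤ k → res (Fk k) (Phi G n) ≤ res F (Phi G n) := by
    intro k n hnk
    obtain ⟨θ, hθ⟩ := exists_phi_surj_of_le G hnk
    refine sInf_le ⟨hnorm n, ?_⟩
    have hs : Function.Surjective ((QuotientGroup.mk' (res F (Phi G n))).comp θ) :=
      (QuotientGroup.mk'_surjective _).comp hθ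
    exact mem_of_good (hFk k) ⟨hnorm k, form_self _⟩ _ hs (res_le_ker hF _ hs (hK n))
  have hstab : ∃ k, ∀ n, res (Fk k) (Phi G n) ≤ res F (Phi G n) := by
    by_contra hcon
    push Not at hcon
    have h1 : ∀ k, ∃ n, ∃ y : Tup G n, ¬ lead G (Fk k) n y ⊆ lead G F n y := by
      intro k
      obtain ⟨n, hn⟩ := hcon k
      refine ⟨n, ?_⟩
      by_contra h
      push Not at h
      exact hn (res_le_of_lead G n (hle k n) h)
    choose n y hy using h1
    let κ : ℕ → ℕ := fun j => Nat.rec 0 (fun _ a => a + n a) j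
    have hκ : ∀ j, κ (j + 1) = κ j + n (κ j) := fun j => rfl
    have hmono : Monotone κ := monotone_nat_of_le_succ fun j => by rw [hκ]; omega
    obtain ⟨j, l, hjl, hc, s, ho, hs⟩ := wqo_words (fun j => n (κ j)) (fun j => (y (κ j)).1)
      (fun j => lead G F (n (κ j)) (y (κ j)))
    have hsurj : Function.Surjective s := by
      obtain ⟨e, he, -⟩ := ho
      exact fun i => ⟨e i, he i⟩
    have hpull : pull G s hsurj (y (κ j)) = y (κ l) := Subtype.ext (funext hs)
    have hnk : n (κ j) ≤ κ l := by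
      have := hmono (Nat.succ_le_of_lt hjl)
      rw [Nat.succ_eq_add_one, hκ] at this
      omega
    apply hy (κ l)
    rw [← hc]
    intro g hg
    rw [← hpull] at hg
    obtain ⟨r, hr, hv⟩ := lead_pull G (hFk (κ l)) (hnek (κ l)) s hsurj ho (y (κ j)) hg
    exact ⟨r, hge _ _ hnk hr, hv⟩
  obtain ⟨k, hk⟩ := hstab
  refine ⟨Phi G k ⧸ res F (Phi G k), inferInstance, inferInstance, fun H _ _ => ⟨fun hH => ?_,
    fun hH => hH F hF (hK k)⟩⟩
  obtain ⟨D, _, _, hD, f, hf⟩ := hsub H hH (Img G) (isForm_img G) (img_self G)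
  obtain ⟨n, θ, hθ⟩ := exists_phi_surj G hD
  have hs : Function.Surjective (f.comp θ) := hf.comp hθ
  exact mem_of_good (hFk k) (good_res (hFk k) (hnek k) _) _ hs
    ((hk n).trans (res_le_ker hF _ hs hH))

end main

end Pool.Agent.P.MP_7ab5f9_al
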