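import Mathlib

set_option autoImplicit false

namespace Pool.Agent.P.MP_7ab5f9_al.UA

/-- a signature: operation symbols with finite arities -/
structure Sig : Type 1 where
  Op : Type
  ar : Op → ℕ

/-- an algebra of the signature `S` -/
structure Alg (S : Sig) : Type 1 where
  car : Type
  op : ∀ o : S.Op, (Fin (S.ar o) → car) → car

/-- terms in the variables `X` -/
inductive Term (S : Sig) (X : Type) : Type where
  | var : X → Term S X
  | app : (o : S.Op) → (Fin (S.ar o) → Term S X) → Term S X

/-- the value of a term -/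
def Term.eval {S : Sig} {X : Type} (A : Alg S) (v : X → A.car) : Term S X → A.car
  | Term.var x => v x
  | Term.app o ts => A.op o fun i => Term.eval A v (ts i)

/-- `f` is a surjective homomorphism -/
def Onto {S : Sig} (A B : Alg S) (f : A.car → B.car) : Prop :=
  Function.Surjective f ∧ ∀ o x, f (A.op o x) = B.op o fun i => f (x i)

/-- `A` has an edge term -/
def HasEdgeTerm {S : Sig} (A : Alg S) : Prop :=
  ∃ (k : ℕ) (t : Term S (Fin (k + 3))), ∀ x y : A.car,
    t.eval A (fun i : Fin (k + 3) => if i.val = 0 ∨ i.val = 1 then y else x) = x ∧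
    t.eval A (fun i : Fin (k + 3) => if i.val = 0 ∨ i.val = 2 then y else x) = x ∧
    ∀ j : Fin (k + 3), 3 ≤ j.val → t.eval A (fun i => if i = j then y else x) = x

/-- a nonempty class of finite nonempty algebras closed under homomorphic images and under
subdirect products of two factors -/
def IsFormation {S : Sig} (F : Alg S → Prop) : Prop :=
  (∃ B, F B) ∧ (∀ B, F B → Finite B.car ∧ Nonempty B.car) ∧
    (∀ B C f, F B → Onto B C f → F C) ∧
    ∀ B C₁ C₂ f₁ f₂, F C₁ → F C₂ → Onto B C₁ f₁ → Onto B C₂ f₂ →
      (∀ x y, f₁ x = f₁ y → f₂ x = f₂ y → x = y) → F B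

/-- the formation generated by `K` -/
def form {S : Sig} (K : Alg S) : Alg S → Prop := fun B => ∀ E, IsFormation E → E K → E B

end Pool.Agent.P.MP_7ab5f9_al.UA
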