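import Mathlib

set_option autoImplicit false

namespace Pool.Agent.P.MP_7ab5f9_al.UA

/-- argument list with three distinguished places -/
def args {B : Type} {k : ℕ} (a b c : B) (d : Fin k → B) : Fin (k + 3) → B :=
  Fin.cons a (Fin.cons b (Fin.cons c d))

structure IsEdge {B : Type} {k : ℕ} (τ : (Fin (k + 3) → B) → B) : Prop where
  e1 : ∀ x y, τ (args y y x fun _ => x) = x
  e2 : ∀ x y, τ (args y x y fun _ => x) = x
  e3 : ∀ x (d : Fin k → B) (j : Fin k), (∀ i, i ≠ j → d i = x) → τ (args x x x d) = x

lemma args_apply {Y B : Type} {k : ℕ} (a b c : Y → B) (d : Fin k → Y → B) (y : Y) :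
    (fun i => args a b c d i y) = args (a y) (b y) (c y) fun i => d i y := by
  funext i
  refine Fin.cases rfl (fun i => Fin.cases rfl (fun i => Fin.cases rfl (fun _ => rfl) i) i) i

lemma args_all {B : Type} {k : ℕ} {p : B → Prop} {a b c : B} {d : Fin k → B} (ha : p a) (hb : p b)
    (hc : p c) (hd : ∀ i, p (d i)) : ∀ i, p (args a b c d i) :=
  fun i => Fin.cases ha (fun i => Fin.cases hb (fun i => Fin.cases hc hd i) i) i

/-- Nested relations with the same small projections and the same forks agree, if the smaller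
one is closed under an edge operation. -/
theorem edge_echelon {Y B : Type} [LinearOrder Y] [Finite Y] {k : ℕ}
    {τ : (Fin (k + 3) → B) → B} (hτ : IsEdge τ) (R R' : Set (Y → B)) (hle : R' ⊆ R)
    (hcl : ∀ u : Fin (k + 3) → Y → B, (∀ i, u i ∈ R') → (fun y => τ fun i => u i y) ∈ R')
    (hproj : ∀ g ∈ R, ∀ T : Finset Y, T.card ≤ k + 1 → ∃ f ∈ R', ∀ y ∈ T, f y = g y)
    (hfork : ∀ y, ∀ r ∈ R, ∀ s ∈ R, (∀ z, z < y → r z = s z) →
      ∃ r' ∈ R', ∃ s' ∈ R', (∀ z, z < y → r' z = s' z) ∧ r' y = r y ∧ s' y = s y) : R ⊆ R' := by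
  classical
  intro g hg
  have hcl' : ∀ a ∈ R', ∀ b ∈ R', ∀ c ∈ R', ∀ d : Fin k → Y → B, (∀ i, d i ∈ R') →
      (fun y => τ (args (a y) (b y) (c y) fun i => d i y)) ∈ R' := by
    intro a ha b hb c hc d hd
    have := hcl (args a b c d) (args_all (p := fun u => u ∈ R') ha hb hc hd)
    simpa only [args_apply] using this
  have step : ∀ y : Y, (∃ f ∈ R', ∀ z, z < y → f z = g z) →
      ∀ (n : ℕ) (T : Finset Y), T.card = n → (∀ z ∈ T, z < y) →
        ∃ f ∈ R', f y = g y ∧ ∀ z ∈ T, f z = g z := by
    rintro y ⟨f', hf', hfg⟩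
    obtain ⟨r, hr, s, hs, hrs, hry, hsy⟩ := hfork y f' (hle hf') g hg hfg
    intro n
    induction n with
    | zero =>
      intro T hT _
      obtain ⟨f, hf, h⟩ := hproj g hg {y} (by simp)
      rw [Finset.card_eq_zero] at hT
      subst hT
      exact ⟨f, hf, h y (by simp), by simp⟩
    | succ n ih =>
      intro T hT hlt
      by_cases hn : n + 1 ≤ k
      · obtain ⟨f, hf, h⟩ := hproj g hg (insert y T)
          ((Finset.card_insert_le _ _).trans (by omega))
        exact ⟨f, hf, h y (by simp), fun z hz => h z (by simp [hz])⟩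
      · have hk : k + 1 ≤ T.card := by omega
        obtain ⟨j, hj⟩ : ∃ j : Fin (k + 1) → Y, Function.Injective j ∧ ∀ i, j i ∈ T :=
          ⟨fun i => (T.equivFin.symm (Fin.castLE hk i) : Y),
            fun a b h => Fin.castLE_injective hk (T.equivFin.symm.injective (Subtype.ext h)),
            fun i => (T.equivFin.symm (Fin.castLE hk i)).2⟩
        have hex : ∀ i, ∃ f ∈ R', f y = g y ∧ ∀ z ∈ T, z ≠ j i → f z = g z := by
          intro i
          obtain ⟨f, hf, h1, h2⟩ := ih (T.erase (j i))
            (by rw [Finset.card_erase_of_mem (hj.2 i)]; omega)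
            (fun z hz => hlt z (Finset.mem_of_mem_erase hz))
          exact ⟨f, hf, h1, fun z hz hne => h2 z (Finset.mem_erase.mpr ⟨hne, hz⟩)⟩
        choose f hf h1 h2 using hex
        have u1 := hcl' f' hf' (f 0) (hf 0) f' hf' (fun _ => f') fun _ => hf'
        have u2 := hcl' f' hf' (f 0) (hf 0) f' hf' (fun i => f i.succ) fun i => hf _
        have u3 := hcl' r hr s hs f' hf' (fun _ => f') fun _ => hf'
        refine ⟨_, hcl' _ u1 _ u2 _ u3 (fun i => f i.succ) fun i => hf _, ?_, fun z hz => ?_⟩
        · simp only [hry, hsy, h1, hτ.e2]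
        · have a1 := hfg z (hlt z hz)
          have a2 := hrs z (hlt z hz)
          simp only [a1, a2, hτ.e1]
          by_cases h0 : z = j 0
          · have a3 : ∀ i : Fin k, f i.succ z = g z := fun i =>
              h2 _ z hz fun e => Fin.succ_ne_zero i (hj.1 (e.symm.trans h0))
            simp only [a3, hτ.e1]
          · rw [h2 0 z hz h0, hτ.e1]
            by_cases h3 : ∃ i : Fin k, z = j i.succ
            · obtain ⟨i, hi⟩ := h3
              have a4 : τ (args (g z) (g z) (g z) fun i => f i.succ z) = g z :=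
                hτ.e3 _ _ i fun i' hi' =>
                  h2 _ z hz fun e => hi' (Fin.succ_injective _ (hj.1 (e.symm.trans hi)))
              rw [a4, a4]
            · have a3 : ∀ i : Fin k, f i.succ z = g z := fun i =>
                h2 _ z hz fun e => h3 ⟨i, e⟩
              simp only [a3, hτ.e1]
  have key : ∀ T : Finset Y, (∀ z ∈ T, ∀ w, w < z → w ∈ T) → ∃ f ∈ R', ∀ z ∈ T, f z = g z := by
    intro T
    induction T using Finset.induction_on_max with
    | empty =>
      intro _
      exact hproj g hg ∅ (by simp)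
    | insert y T hy ih =>
      intro hT
      obtain ⟨f', hf', h'⟩ := ih fun z hz w hw => by
        rcases Finset.mem_insert.mp (hT z (Finset.mem_insert_of_mem hz) w hw) with e | e
        · exact absurd (hw.trans (hy z hz)) (by rw [e]; exact lt_irrefl _)
        · exact e
      obtain ⟨f, hf, h1, h2⟩ := step y ⟨f', hf', fun z hz => h' z (by
        rcases Finset.mem_insert.mp (hT y (Finset.mem_insert_self _ _) z hz) with e | e
        · exact absurd hz (by rw [e]; exact lt_irrefl _)
        · exact e)⟩ _ T rfl hy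
      refine ⟨f, hf, fun z hz => ?_⟩
      rcases Finset.mem_insert.mp hz with e | e
      · rw [e]; exact h1
      · exact h2 z e
  have := Fintype.ofFinite Y
  obtain ⟨f, hf, h⟩ := key Finset.univ fun _ _ w _ => Finset.mem_univ w
  have : g = f := funext fun z => (h z (Finset.mem_univ z)).symm
  rw [this]
  exact hf

end Pool.Agent.P.MP_7ab5f9_al.UA
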