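import Mathlib
import Pool.Agent.P.MP_7ab5f9_al.Wqo
import Pool.Agent.P.MP_7ab5f9_al.UADefs
import Pool.Agent.P.MP_7ab5f9_al.UAEdge

set_option autoImplicit false

namespace Pool.Agent.P.MP_7ab5f9_al.UA

variable {S : Sig}

/-- homomorphisms -/
def IsHom (A B : Alg S) (f : A.car → B.car) : Prop :=
  ∀ o x, f (A.op o x) = B.op o fun i => f (x i)

lemma IsHom.eval {A B : Alg S} {f : A.car → B.car} (hf : IsHom A B f) {X : Type} (v : X → A.car)
    (t : Term S X) : f (t.eval A v) = t.eval B fun x => f (v x) := by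
  induction t with
  | var x => rfl
  | app o ts ih =>
    simp only [Term.eval]
    rw [hf]
    exact congrArg _ (funext ih)

lemma Onto.comp {A B C : Alg S} {f : A.car → B.car} {g : B.car → C.car} (hg : Onto B C g)
    (hf : Onto A B f) : Onto A C fun x => g (f x) :=
  ⟨hg.1.comp hf.1, fun o x => (congrArg g (hf.2 o x)).trans (hg.2 o _)⟩

lemma onto_id (A : Alg S) : Onto A A fun x => x := ⟨fun x => ⟨x, rfl⟩, fun _ _ => rfl⟩

/-- renaming of variables -/
def Term.map {X Y : Type} (s : X → Y) : Term S X → Term S Y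
  | Term.var x => Term.var (s x)
  | Term.app o ts => Term.app o fun i => Term.map s (ts i)

lemma eval_map (A : Alg S) {X Y : Type} (s : X → Y) (v : Y → A.car) (t : Term S X) :
    (t.map s).eval A v = t.eval A fun x => v (s x) := by
  induction t with
  | var x => rfl
  | app o ts ih =>
    simp only [Term.map, Term.eval]
    exact congrArg _ (funext ih)

/-- subalgebra cut out by a closed predicate -/
def subAlg (A : Alg S) (p : A.car → Prop) (hp : ∀ o x, (∀ i, p (x i)) → p (A.op o x)) : Alg S where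
  car := {x // p x}
  op o x := ⟨A.op o fun i => (x i).1, hp o _ fun i => (x i).2⟩

def prodAlg (A B : Alg S) : Alg S where
  car := A.car × B.car
  op o x := (A.op o fun i => (x i).1, B.op o fun i => (x i).2)

def powAlg (A : Alg S) (Y : Type) : Alg S where
  car := Y → A.car
  op o x := fun y => A.op o fun i => x i y

def unitAlg (S : Sig) : Alg S where
  car := Unit
  op _ _ := ()

lemma isFormation_all : IsFormation fun B : Alg S => Finite B.car ∧ Nonempty B.car := by
  refine ⟨⟨unitAlg S, (inferInstance : Finite Unit), ⟨()⟩⟩, fun _ h => h, ?_, ?_⟩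
  · rintro B C f ⟨h1, ⟨x⟩⟩ hf
    exact ⟨Finite.of_surjective f hf.1, ⟨f x⟩⟩
  · rintro B C₁ C₂ f₁ f₂ ⟨h1, ⟨x⟩⟩ ⟨h2, -⟩ hf₁ - hs
    obtain ⟨b, -⟩ := hf₁.1 x
    exact ⟨Finite.of_injective (fun b => (f₁ b, f₂ b))
      fun a b h => hs a b (congrArg Prod.fst h) (congrArg Prod.snd h), ⟨b⟩⟩

lemma form_self (K : Alg S) : form K K := fun _ _ h => h

lemma isFormation_form (K : Alg S) (h1 : Finite K.car) (h2 : Nonempty K.car) :
    IsFormation (form K) :=
  ⟨⟨K, form_self K⟩, fun _ h => h _ isFormation_all ⟨h1, h2⟩,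
    fun B C f h hf E hE hK => hE.2.2.1 B C f (h E hE hK) hf,
    fun B C₁ C₂ f₁ f₂ a b c d e E hE hK => hE.2.2.2 B C₁ C₂ f₁ f₂ (a E hE hK) (b E hE hK) c d e⟩

/-- the residual congruence -/
def res (F : Alg S → Prop) (X : Alg S) : Set (X.car × X.car) :=
  {p | ∀ (Y : Alg S) (f : X.car → Y.car), F Y → Onto X Y f → f p.1 = f p.2}

section residual

variable {F : Alg S → Prop} (hF : IsFormation F)
include hF

lemma good_res (X : Alg S) [Finite X.car] [Nonempty X.car] :
    ∃ (Y : Alg S) (f : X.car → Y.car), F Y ∧ Onto X Y f ∧ ∀ a b, f a = f b → (a, b) ∈ res F X := by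
  have hu : F (unitAlg S) := by
    obtain ⟨B, hB⟩ := hF.1
    obtain ⟨b⟩ := (hF.2.1 B hB).2
    exact hF.2.2.1 B _ (fun _ => ()) hB ⟨fun _ => ⟨b, rfl⟩, fun _ _ => rfl⟩
  obtain ⟨N, ⟨Y, f, hY, hf, rfl⟩, hmin⟩ :=
    WellFounded.has_min (wellFounded_lt (α := Set (X.car × X.car)))
      {N | ∃ (Y : Alg S) (f : X.car → Y.car), F Y ∧ Onto X Y f ∧ N = {p | f p.1 = f p.2}}
      ⟨_, unitAlg S, fun _ => (), hu, ⟨fun _ => ⟨Classical.arbitrary _, rfl⟩, fun _ _ => rfl⟩, rfl⟩
  refine ⟨Y, f, hY, hf, fun a b hab Z g hZ hg => ?_⟩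
  let W : Alg S := subAlg (prodAlg Y Z) (fun q => ∃ x, q = (f x, g x)) (by
    intro o q hq
    choose x hx using hq
    refine ⟨X.op o x, ?_⟩
    rw [hf.2, hg.2]
    simp only [prodAlg, hx])
  have hW : F W := by
    refine hF.2.2.2 W Y Z (fun q => q.1.1) (fun q => q.1.2) hY hZ ⟨fun y => ?_, fun _ _ => rfl⟩
      ⟨fun z => ?_, fun _ _ => rfl⟩ fun p q h1 h2 => Subtype.ext (Prod.ext h1 h2)
    · obtain ⟨x, rfl⟩ := hf.1 y
      exact ⟨⟨_, x, rfl⟩, rfl⟩
    · obtain ⟨x, rfl⟩ := hg.1 z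
      exact ⟨⟨_, x, rfl⟩, rfl⟩
  have hh : Onto X W fun x => ⟨(f x, g x), x, rfl⟩ := by
    refine ⟨?_, fun o x => Subtype.ext (Prod.ext (hf.2 o x) (hg.2 o x))⟩
    rintro ⟨_, x, rfl⟩
    exact ⟨x, rfl⟩
  by_contra hne
  refine hmin _ ⟨W, _, hW, hh, rfl⟩ (lt_of_le_of_ne (fun p hp => ?_) fun e => hne ?_)
  · exact congrArg (fun q : W.car => q.1.1) hp
  · have : (a, b) ∈ {p : X.car × X.car | f p.1 = f p.2} := hab
    rw [← e] at this
    exact congrArg (fun q : W.car => q.1.2) this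

lemma mem_of_ker {X Y Z : Alg S} {f : X.car → Y.car} {g : X.car → Z.car} (hY : F Y)
    (hf : Onto X Y f) (hg : Onto X Z g) (h : ∀ a b, f a = f b → g a = g b) : F Z := by
  choose e he using hf.1
  refine hF.2.2.1 Y Z (fun y => g (e y)) hY ⟨fun z => ?_, fun o y => ?_⟩
  · obtain ⟨x, rfl⟩ := hg.1 z
    exact ⟨f x, h _ _ (he _)⟩
  · rw [← hg.2]
    refine h _ _ ?_
    rw [he, hf.2]
    simp only [he]

omit hF in
lemma map_res {X Y : Alg S} {f : X.car → Y.car} (hf : Onto X Y f) {p : X.car × X.car}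
    (hp : p ∈ res F X) : (f p.1, f p.2) ∈ res F Y :=
  fun Z g hZ hg => hp Z _ hZ (hg.comp hf)

end residual

section generic

variable (A : Alg S)

/-- generating tuples -/
def Tup (n : ℕ) : Type :=
  {y : Fin (n + 1) → A.car // Function.Surjective fun t : Term S (Fin (n + 1)) => t.eval A y}

instance [Finite A.car] (n : ℕ) : Finite (Tup A n) := by
  unfold Tup; infer_instance

/-- the largest subdirect power of `A` with `n + 1` generators -/
def Phi (n : ℕ) : Alg S :=
  subAlg (powAlg A (Tup A n)) (fun g => ∃ t : Term S (Fin (n + 1)), ∀ y, g y = t.eval A y.1) (by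
    intro o g hg
    choose t ht using hg
    exact ⟨Term.app o t, fun y => by simp only [powAlg, Term.eval, ht]⟩)

instance [Finite A.car] (n : ℕ) : Finite (Phi A n).car := by
  unfold Phi subAlg powAlg; infer_instance

instance (n : ℕ) : Nonempty (Phi A n).car := ⟨⟨fun y => y.1 0, Term.var 0, fun _ => rfl⟩⟩

/-- surjections onto `A` separate points -/
def Sep (D : Alg S) : Prop :=
  ∀ a b : D.car, (∀ z, Onto D A z → z a = z b) → a = b

lemma exists_phi_surj {D : Alg S} [Finite D.car] [Nonempty D.car] (hD : Sep A D) :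
    ∃ n θ, Onto (Phi A n) D θ := by
  obtain ⟨m, ⟨e⟩⟩ := Finite.exists_equiv_fin D.car
  obtain ⟨n, rfl⟩ : ∃ n, m = n + 1 := by
    cases m with
    | zero => exact (e (Classical.arbitrary _)).elim0
    | succ n => exact ⟨n, rfl⟩
  have key : ∀ t t' : Term S (Fin (n + 1)), (∀ y : Tup A n, t.eval A y.1 = t'.eval A y.1) →
      t.eval D e.symm = t'.eval D e.symm := by
    intro t t' h
    refine hD _ _ fun z hz => ?_
    rw [IsHom.eval hz.2, IsHom.eval hz.2]
    refine h ⟨fun i => z (e.symm i), fun a => ?_⟩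
    obtain ⟨d, rfl⟩ := hz.1 a
    exact ⟨Term.var (e d), by simp [Term.eval]⟩
  refine ⟨n, fun g => g.2.choose.eval D e.symm, fun d => ?_, fun o g => ?_⟩
  · refine ⟨⟨fun y => y.1 (e d), Term.var (e d), fun _ => rfl⟩, ?_⟩
    refine (key _ (Term.var (e d)) fun y => ?_).trans (by simp [Term.eval])
    exact (Exists.choose_spec (p := fun t : Term S (Fin (n + 1)) =>
      ∀ y : Tup A n, y.1 (e d) = t.eval A y.1) _ y).symm
  · refine key _ (Term.app o fun i => (g i).2.choose) fun y => ?_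
    rw [← ((Phi A n).op o g).2.choose_spec y]
    simp only [Term.eval]
    exact congrArg _ (funext fun i => (g i).2.choose_spec y)

/-- images of finite subdirect powers of `A` -/
def Img : Alg S → Prop := fun H =>
  ∃ D : Alg S, Finite D.car ∧ Nonempty D.car ∧ Sep A D ∧ ∃ f, Onto D H f

lemma img_self [h1 : Finite A.car] [h2 : Nonempty A.car] : Img A A :=
  ⟨A, h1, h2, fun _ _ h => h _ (onto_id A), _, onto_id A⟩

lemma isFormation_img [Finite A.car] [Nonempty A.car] : IsFormation (Img A) := by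
  refine ⟨⟨A, img_self A⟩, ?_, ?_, ?_⟩
  · rintro B ⟨D, h1, ⟨d⟩, -, f, hf⟩
    exact ⟨Finite.of_surjective f hf.1, ⟨f d⟩⟩
  · rintro B C g ⟨D, h1, h2, hD, f, hf⟩ hg
    exact ⟨D, h1, h2, hD, _, hg.comp hf⟩
  · rintro B C₁ C₂ p₁ p₂ ⟨D₁, a1, ⟨d₁⟩, hD₁, f₁, hf₁⟩ ⟨D₂, a2, -, hD₂, f₂, hf₂⟩ hp₁ hp₂ hp
    let D : Alg S := subAlg (prodAlg B (prodAlg D₁ D₂))
      (fun t => p₁ t.1 = f₁ t.2.1 ∧ p₂ t.1 = f₂ t.2.2) (by
        intro o t ht
        simp only [prodAlg]
        rw [hp₁.2, hp₂.2, hf₁.2, hf₂.2]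
        exact ⟨congrArg _ (funext fun i => (ht i).1), congrArg _ (funext fun i => (ht i).2)⟩)
    have inj : ∀ s t : D.car, s.1.2.1 = t.1.2.1 → s.1.2.2 = t.1.2.2 → s = t := by
      intro s t h1 h2
      refine Subtype.ext (Prod.ext (hp _ _ ?_ ?_) (Prod.ext h1 h2))
      · rw [s.2.1, t.2.1, h1]
      · rw [s.2.2, t.2.2, h2]
    have o1 : Onto D D₁ fun t => t.1.2.1 := by
      refine ⟨fun a => ?_, fun _ _ => rfl⟩
      obtain ⟨x, hx⟩ := hp₁.1 (f₁ a)
      obtain ⟨b, hb⟩ := hf₂.1 (p₂ x)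
      exact ⟨⟨(x, a, b), hx, hb.symm⟩, rfl⟩
    have o2 : Onto D D₂ fun t => t.1.2.2 := by
      refine ⟨fun b => ?_, fun _ _ => rfl⟩
      obtain ⟨x, hx⟩ := hp₂.1 (f₂ b)
      obtain ⟨a, ha⟩ := hf₁.1 (p₁ x)
      exact ⟨⟨(x, a, b), ha.symm, hx⟩, rfl⟩
    refine ⟨D, Finite.of_injective (fun t : D.car => (t.1.2.1, t.1.2.2))
      fun s t h => inj s t (congrArg Prod.fst h) (congrArg Prod.snd h), ⟨(o1.1 d₁).choose⟩,
      fun s t h => inj s t (hD₁ _ _ fun z hz => h _ (hz.comp o1))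
        (hD₂ _ _ fun z hz => h _ (hz.comp o2)), fun t => t.1.1, fun x => ?_, fun _ _ => rfl⟩
    obtain ⟨a, ha⟩ := hf₁.1 (p₁ x)
    obtain ⟨b, hb⟩ := hf₂.1 (p₂ x)
    exact ⟨⟨(x, a, b), ha.symm, hb.symm⟩, rfl⟩

/-- precomposition of a generating tuple with a surjection -/
def pull {m n : ℕ} (s : Fin (n + 1) → Fin (m + 1)) (hs : Function.Surjective s) (y : Tup A m) :
    Tup A n :=
  ⟨fun j => y.1 (s j), fun a => by
    obtain ⟨t, ht⟩ := y.2 a
    choose e he using hs
    refine ⟨t.map e, ?_⟩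
    simp only [eval_map, he]
    exact ht⟩

lemma exists_restrict {m n : ℕ} (s : Fin (n + 1) → Fin (m + 1)) (hs : Function.Surjective s) :
    ∃ θ, Onto (Phi A n) (Phi A m) θ ∧ ∀ r y, (θ r).1 y = r.1 (pull A s hs y) := by
  refine ⟨fun r => ⟨fun y => r.1 (pull A s hs y), ?_⟩, ⟨?_, fun _ _ => rfl⟩, fun _ _ => rfl⟩
  · obtain ⟨t, ht⟩ := r.2
    exact ⟨t.map s, fun y => (ht _).trans (eval_map A s y.1 t).symm⟩
  · rintro ⟨g, t, ht⟩
    obtain ⟨e, he⟩ := hs.hasRightInverse
    refine ⟨⟨fun y => (t.map e).eval A y.1, t.map e, fun _ => rfl⟩, Subtype.ext (funext fun y => ?_)⟩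
    simp only [eval_map, pull, he _]
    exact (ht y).symm

lemma exists_phi_surj_of_le {n k : ℕ} (h : n ≤ k) : ∃ θ, Onto (Phi A k) (Phi A n) θ := by
  obtain ⟨θ, hθ, -⟩ := exists_restrict A
    (fun i : Fin (k + 1) => if hi : (i : ℕ) < n + 1 then (⟨i, hi⟩ : Fin (n + 1)) else 0)
    fun i => ⟨⟨i, by omega⟩, by simp [i.2]⟩
  exact ⟨θ, hθ⟩

end generic

section main

variable (A : Alg S) [Finite A.car]

/-- a fixed injective numbering -/
noncomputable def num : A.car → ℕ := fun g => (Finite.equivFin A.car g : ℕ)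

lemma num_inj : Function.Injective (num A) := fun _ _ h =>
  (Finite.equivFin A.car).injective (Fin.ext h)

/-- lexicographic code of a tuple -/
noncomputable def code (n : ℕ) (y : Tup A n) : Lex (Fin (n + 1) → ℕ) :=
  toLex fun i => num A (y.1 i)

lemma code_inj (n : ℕ) : Function.Injective (code A n) := by
  intro y y' h
  apply Subtype.ext
  funext i
  exact num_inj A (congrFun (toLex.injective h) i)

lemma code_pull_lt {m n : ℕ} (s : Fin (n + 1) → Fin (m + 1)) (hs : Function.Surjective s)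
    (ho : OrdSurj s) (y y' : Tup A m) (h : code A m y' < code A m y) :
    code A n (pull A s hs y') < code A n (pull A s hs y) := by
  obtain ⟨e, he1, he2⟩ := ho
  obtain ⟨i, hi1, hi2⟩ := h
  refine ⟨e i, fun j hj => hi1 (s j) (he2 i j hj), ?_⟩
  show num A (y'.1 (s (e i))) < num A (y.1 (s (e i)))
  rw [he1]
  exact hi2

/-- the residual congruence as a relation with coordinates in `A × A` -/
def rel (F : Alg S → Prop) (n : ℕ) : Set (Tup A n → A.car × A.car) :=
  {g | ∃ p ∈ res F (Phi A n), g = fun y => (p.1.1 y, p.2.1 y)}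

/-- forks at the first tuple and projections to all the tuples of `z` -/
def inv (F : Alg S → Prop) (k n : ℕ) (z : Fin (k + 1) → Tup A n) :
    Set (((A.car × A.car) × (A.car × A.car)) ⊕ (Fin (k + 1) → A.car × A.car)) :=
  {c | (∃ r ∈ rel A F n, ∃ s ∈ rel A F n,
      (∀ y, code A n y < code A n (z 0) → r y = s y) ∧ c = Sum.inl (r (z 0), s (z 0))) ∨
    ∃ r ∈ rel A F n, c = Sum.inr fun i => r (z i)}

omit [Finite A.car] in
lemma rel_pull (F : Alg S → Prop) {m n : ℕ} (s : Fin (n + 1) → Fin (m + 1))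
    (hs : Function.Surjective s) {r : Tup A n → A.car × A.car} (hr : r ∈ rel A F n) :
    (fun y => r (pull A s hs y)) ∈ rel A F m := by
  obtain ⟨p, hp, rfl⟩ := hr
  obtain ⟨θ, hθ, hθ'⟩ := exists_restrict A s hs
  exact ⟨_, map_res hθ hp, by simp only [hθ']⟩

lemma inv_pull (F : Alg S → Prop) (k : ℕ) {m n : ℕ} (s : Fin (n + 1) → Fin (m + 1))
    (hs : Function.Surjective s) (ho : OrdSurj s) (z : Fin (k + 1) → Tup A m) :
    inv A F k n (fun i => pull A s hs (z i)) ⊆ inv A F k m z := by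
  rintro c (⟨r, hr, r', hr', hv, rfl⟩ | ⟨r, hr, rfl⟩)
  · exact Or.inl ⟨_, rel_pull A F s hs hr, _, rel_pull A F s hs hr',
      fun y hy => hv _ (code_pull_lt A s hs ho _ y hy), rfl⟩
  · exact Or.inr ⟨_, rel_pull A F s hs hr, rfl⟩

lemma inv_mono {F F' : Alg S → Prop} (k n : ℕ) (h : res F (Phi A n) ⊆ res F' (Phi A n))
    (z : Fin (k + 1) → Tup A n) : inv A F k n z ⊆ inv A F' k n z := by
  have hrel : rel A F n ⊆ rel A F' n := by
    rintro _ ⟨p, hp, rfl⟩
    exact ⟨p, h hp, rfl⟩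
  rintro c (⟨r, hr, r', hr', hv, rfl⟩ | ⟨r, hr, rfl⟩)
  · exact Or.inl ⟨r, hrel hr, r', hrel hr', hv, rfl⟩
  · exact Or.inr ⟨r, hrel hr, rfl⟩

omit [Finite A.car] in
lemma isEdge_of_term (h : HasEdgeTerm A) :
    ∃ (k : ℕ) (t : Term S (Fin (k + 3))), IsEdge fun v => t.eval A v := by
  obtain ⟨k, t, ht⟩ := h
  refine ⟨k, t, fun x y => ?_, fun x y => ?_, fun x d j hd => ?_⟩
  · refine Eq.trans (congrArg (fun v => t.eval A v) (funext fun i => ?_)) (ht x y).1
    refine Fin.cases rfl (fun i => Fin.cases rfl (fun i => Fin.cases rfl (fun i => ?_) i) i) i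
    simp [args]
  · refine Eq.trans (congrArg (fun v => t.eval A v) (funext fun i => ?_)) (ht x y).2.1
    refine Fin.cases rfl (fun i => Fin.cases rfl (fun i => Fin.cases rfl (fun i => ?_) i) i) i
    simp [args]
  · refine Eq.trans (congrArg (fun v => t.eval A v) (funext fun i => ?_))
      ((ht x (d j)).2.2 j.succ.succ.succ (by simp))
    refine Fin.cases rfl (fun i => Fin.cases rfl (fun i => Fin.cases rfl (fun i => ?_) i) i) i
    by_cases hij : i = j
    · subst hij
      simp [args]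
    · simp [args, hij, hd i hij]

lemma res_le_of_inv {k : ℕ} {t : Term S (Fin (k + 3))} (ht : IsEdge fun v => t.eval A v)
    {F F' : Alg S → Prop} (n : ℕ) (hle : res F' (Phi A n) ⊆ res F (Phi A n))
    (h : ∀ z, inv A F k n z ⊆ inv A F' k n z) : res F (Phi A n) ⊆ res F' (Phi A n) := by
  classical
  letI : LinearOrder (Tup A n) := LinearOrder.lift' (code A n) (code_inj A n)
  have hτ : IsEdge fun v : Fin (k + 3) → A.car × A.car =>
      (t.eval A fun i => (v i).1, t.eval A fun i => (v i).2) := by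
    have a1 : ∀ (a b c : A.car × A.car) (d : Fin k → A.car × A.car),
        (fun i => (args a b c d i).1) = args a.1 b.1 c.1 fun i => (d i).1 := fun a b c d =>
      funext fun i =>
        Fin.cases rfl (fun i => Fin.cases rfl (fun i => Fin.cases rfl (fun _ => rfl) i) i) i
    have a2 : ∀ (a b c : A.car × A.car) (d : Fin k → A.car × A.car),
        (fun i => (args a b c d i).2) = args a.2 b.2 c.2 fun i => (d i).2 := fun a b c d =>
      funext fun i =>
        Fin.cases rfl (fun i => Fin.cases rfl (fun i => Fin.cases rfl (fun _ => rfl) i) i) i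
    refine ⟨fun x y => ?_, fun x y => ?_, fun x d j hd => ?_⟩ <;> simp only [a1, a2]
    · exact Prod.ext (ht.e1 _ _) (ht.e1 _ _)
    · exact Prod.ext (ht.e2 _ _) (ht.e2 _ _)
    · exact Prod.ext (ht.e3 _ _ j fun i hi => by rw [hd i hi])
        (ht.e3 _ _ j fun i hi => by rw [hd i hi])
  have hsub : rel A F n ⊆ rel A F' n := by
    refine edge_echelon hτ _ _ ?_ ?_ ?_ ?_
    · rintro _ ⟨p, hp, rfl⟩
      exact ⟨p, hle hp, rfl⟩
    · intro u hu
      choose p hp hu using hu
      have ev : ∀ (y : Tup A n) (v : Fin (k + 3) → (Phi A n).car),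
          (t.eval (Phi A n) v).1 y = t.eval A fun i => (v i).1 y := fun y v =>
        IsHom.eval (A := Phi A n) (B := A) (f := fun r => r.1 y) (fun _ _ => rfl) v t
      refine ⟨(t.eval (Phi A n) fun i => (p i).1, t.eval (Phi A n) fun i => (p i).2),
        fun Y f hY hf => ?_, ?_⟩
      · simp only
        rw [IsHom.eval hf.2, IsHom.eval hf.2]
        exact congrArg (fun v => t.eval Y v) (funext fun i => hp i Y f hY hf)
      · funext y
        simp only [ev, hu]
    · intro g hg T hT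
      rcases T.eq_empty_or_nonempty with rfl | ⟨y0, hy0⟩
      · obtain ⟨x⟩ : Nonempty (Phi A n).car := inferInstance
        exact ⟨_, ⟨(x, x), fun _ _ _ _ => rfl, rfl⟩, by simp⟩
      · have hz : ∀ y ∈ T, ∃ i : Fin (k + 1),
            (if hi : (i : ℕ) < T.card then (T.equivFin.symm ⟨i, hi⟩ : Tup A n) else y0) = y := by
          intro y hy
          have := (T.equivFin ⟨y, hy⟩).2
          exact ⟨⟨T.equivFin ⟨y, hy⟩, by omega⟩, by simp [this]⟩
        rcases h (fun i => if hi : (i : ℕ) < T.card then (T.equivFin.symm ⟨i, hi⟩ : Tup A n)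
          else y0) (Or.inr ⟨g, hg, rfl⟩) with ⟨_, _, _, _, _, e⟩ | ⟨f, hf, e⟩
        · cases e
        · refine ⟨f, hf, fun y hy => ?_⟩
          obtain ⟨i, hi⟩ := hz y hy
          rw [← hi]
          exact (congrFun (Sum.inr.inj e) i).symm
    · intro y r hr s hs hv
      rcases h (fun _ => y) (Or.inl ⟨r, hr, s, hs, hv, rfl⟩) with
        ⟨r', hr', s', hs', hv', e⟩ | ⟨_, _, e⟩
      · obtain ⟨e1, e2⟩ := Prod.mk.inj (Sum.inl.inj e)
        exact ⟨r', hr', s', hs', hv', e1.symm, e2.symm⟩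
      · cases e
  intro p hp
  obtain ⟨q, hq, e⟩ := hsub ⟨p, hp, rfl⟩
  have : p = q := Prod.ext (Subtype.ext (funext fun y => congrArg Prod.fst (congrFun e y)))
    (Subtype.ext (funext fun y => congrArg Prod.snd (congrFun e y)))
  rw [this]
  exact hq

theorem main (hA : HasEdgeTerm A) [Nonempty A.car] (F : Alg S → Prop) (hF : IsFormation F)
    (hsub : ∀ B, F B → form A B) :
    ∃ K : Alg S, Finite K.car ∧ Nonempty K.car ∧ ∀ B, F B ↔ form K B := by
  classical
  obtain ⟨d, t, ht⟩ := isEdge_of_term A hA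
  choose K π hK hπ hker using fun k => good_res hF (Phi A k)
  have hFk : ∀ k, IsFormation (form (K k)) := fun k =>
    isFormation_form _ (hF.2.1 _ (hK k)).1 (hF.2.1 _ (hK k)).2
  have hle : ∀ k n, res F (Phi A n) ⊆ res (form (K k)) (Phi A n) :=
    fun k n p hp Y f hY hf => hp Y f (hY F hF (hK k)) hf
  have hge : ∀ k n, n ≤ k → res (form (K k)) (Phi A n) ⊆ res F (Phi A n) := by
    intro k n hnk p hp
    obtain ⟨θ, hθ⟩ := exists_phi_surj_of_le A hnk
    have hs := (hπ n).comp hθ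
    exact hker n _ _ (hp _ _ (mem_of_ker (hFk k) (form_self _) (hπ k) hs
      fun a b hab => hker k a b hab _ _ (hK n) hs) (hπ n))
  have hstab : ∃ k, ∀ n, res (form (K k)) (Phi A n) ⊆ res F (Phi A n) := by
    by_contra hcon
    push Not at hcon
    have h1 : ∀ k, ∃ n, ∃ z : Fin (d + 1) → Tup A n,
        ¬ inv A (form (K k)) d n z ⊆ inv A F d n z := by
      intro k
      obtain ⟨n, hn⟩ := hcon k
      refine ⟨n, ?_⟩
      by_contra h
      push Not at h
      exact hn (res_le_of_inv A ht n (hle k n) h)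
    choose n z hz using h1
    let κ : ℕ → ℕ := fun j => Nat.rec 0 (fun _ a => a + n a) j
    have hκ : ∀ j, κ (j + 1) = κ j + n (κ j) := fun j => rfl
    have hmono : Monotone κ := monotone_nat_of_le_succ fun j => by rw [hκ]; omega
    obtain ⟨j, l, hjl, hc, s, ho, hs⟩ := wqo_words (fun j => n (κ j) + 1)
      (fun j a i => (z (κ j) i).1 a) (fun j => inv A F d (n (κ j)) (z (κ j)))
    have hsurj : Function.Surjective s := by
      obtain ⟨e, he, -⟩ := ho
      exact fun i => ⟨e i, he i⟩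
    have hpull : (fun i => pull A s hsurj (z (κ j) i)) = z (κ l) :=
      funext fun i => Subtype.ext (funext fun a => congrFun (hs a) i)
    have hnk : n (κ j) ≤ κ l := by
      have := hmono (Nat.succ_le_of_lt hjl)
      rw [Nat.succ_eq_add_one, hκ] at this
      omega
    apply hz (κ l)
    rw [← hc]
    intro g hg
    rw [← hpull] at hg
    exact inv_mono A d _ (hge _ _ hnk) _ (inv_pull A _ d s hsurj ho _ hg)
  obtain ⟨k, hk⟩ := hstab
  refine ⟨K k, (hF.2.1 _ (hK k)).1, (hF.2.1 _ (hK k)).2, fun B => ⟨fun hB => ?_,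
    fun hB => hB F hF (hK k)⟩⟩
  obtain ⟨D, _, _, hD, f, hf⟩ := hsub B hB (Img A) (isFormation_img A) (img_self A)
  obtain ⟨n, θ, hθ⟩ := exists_phi_surj A hD
  have hs := hf.comp hθ
  obtain ⟨Y, g, hY, hg, hker'⟩ := good_res (hFk k) (Phi A n)
  exact mem_of_ker (hFk k) hY hg hs fun a b hab => hk n (hker' a b hab) _ _ hB hs

end main

end Pool.Agent.P.MP_7ab5f9_al.UA
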